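import Pool.Agent.P8H14.CN.Stm

/-! Project CN of helper14, package DIAG: the diagonal sum. -/

set_option autoImplicit false

namespace Pool.Agent.P8H41.CN

open Finset Pool.Agent.P8H14.CN

theorem sq_aux (g g' c x : ℕ) (hc : c ≠ 0) (hg : Squarefree g) (hg' : Squarefree g')
    (h : c ^ 2 * (g * g') = x * x) : g = g' := by
  have h1 : c ∣ x := by
    rw [← Nat.pow_dvd_pow_iff (n := 2) (by norm_num)]
    exact ⟨g * g', by rw [h]; ring⟩
  obtain ⟨y, rfl⟩ := h1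
  have h2 : g * g' = y ^ 2 := by
    have h3 : c ^ 2 * (g * g') = c ^ 2 * y ^ 2 := by rw [h]; ring
    exact Nat.eq_of_mul_eq_mul_left (by positivity) h3
  have h3 : g ∣ y := (hg.dvd_pow_iff_dvd (n := 2) (by norm_num)).1 ⟨g', h2.symm⟩
  obtain ⟨t, rfl⟩ := h3
  have hg0 : 0 < g := Nat.pos_of_ne_zero hg.ne_zero
  have h4 : g' = g * (t * t) := by
    have h5 : g * g' = g * (g * (t * t)) := by rw [h2]; ring
    exact Nat.eq_of_mul_eq_mul_left hg0 h5
  have h6 : t = 1 := Nat.isUnit_iff.1 (hg' t ⟨g, by rw [h4]; ring⟩)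
  rw [h4, h6]; ring

theorem od_eq (n : ℕ) : 2 ^ padicValNat 2 n * od n = n := by
  unfold od
  exact Nat.mul_div_cancel' pow_padicValNat_dvd

theorem diag (hM : S_MUL) : S_DIAG := by
  obtain ⟨-, -, hmul, hod⟩ := hM
  have h : ∀ n : ℕ, ∃ p : ℕ × ℕ, p.2 ^ 2 * p.1 = od n ∧ Squarefree p.1 := by
    intro n
    obtain ⟨a, b, h1, h2⟩ := Nat.sq_mul_squarefree (od n)
    exact ⟨(a, b), h1, h2⟩
  choose F hF1 hF2 using h
  obtain ⟨r, hr⟩ : ∃ r : ℝ, r = (2 : ℝ) ^ (-(7 / 8) : ℝ) := ⟨_, rfl⟩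
  have hr0 : 0 ≤ r := by rw [hr]; positivity
  have hr1 : r < 1 := by
    rw [hr]; exact Real.rpow_lt_one_of_one_lt_of_neg (by norm_num) (by norm_num)
  obtain ⟨A, hA⟩ : ∃ A : ℝ, A = ∑' a : ℕ, r ^ a := ⟨_, rfl⟩
  obtain ⟨Z, hZ⟩ : ∃ Z : ℝ, Z = ∑' s : ℕ, (s : ℝ) ^ (-(7 / 4) : ℝ) := ⟨_, rfl⟩
  have hsA : Summable fun a : ℕ => r ^ a := summable_geometric_of_lt_one hr0 hr1
  have hsZ : Summable fun s : ℕ => (s : ℝ) ^ (-(7 / 4) : ℝ) :=
    Real.summable_nat_rpow.2 (by norm_num)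
  have hA0 : 0 ≤ A := by rw [hA]; exact tsum_nonneg fun a => pow_nonneg hr0 a
  have hZ0 : 0 ≤ Z := by rw [hZ]; exact tsum_nonneg fun a => Real.rpow_nonneg (Nat.cast_nonneg _) _
  refine ⟨Z * (A * Z) ^ 2 + 1, by positivity, ?_⟩
  intro z N hz
  have hzr : (1 : ℝ) ≤ z := by exact_mod_cast hz
  have hz0 : (0 : ℝ) < z := by linarith
  -- data of `n`
  have hn : ∀ n ∈ Ioc z N, 1 ≤ n := fun n hn => by
    have := (mem_Ioc.1 hn).1
    omega
  have hdec : ∀ n : ℕ, 2 ^ padicValNat 2 n * ((F n).2 ^ 2 * (F n).1) = n := fun n => by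
    rw [hF1, od_eq]
  have hpos : ∀ n : ℕ, 1 ≤ n → 1 ≤ (F n).1 ∧ 1 ≤ (F n).2 := by
    intro n hn
    have h1 := hdec n
    constructor
    · by_contra h2
      have : (F n).1 = 0 := by omega
      rw [this] at h1; simp at h1; omega
    · by_contra h2
      have : (F n).2 = 0 := by omega
      rw [this] at h1; simp at h1; omega
  have hle : ∀ n : ℕ, 1 ≤ n → (F n).1 ≤ n ∧ (F n).2 ≤ n ∧ padicValNat 2 n < n := by
    intro n hn
    obtain ⟨h1, h2⟩ := hpos n hn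
    have h3 := hdec n
    have h4 : 1 ≤ 2 ^ padicValNat 2 n := Nat.one_le_two_pow
    have h5 : padicValNat 2 n < 2 ^ padicValNat 2 n := Nat.lt_two_pow_self
    have h6 : (F n).2 ^ 2 * (F n).1 ≤ n := by
      calc (F n).2 ^ 2 * (F n).1 = 1 * ((F n).2 ^ 2 * (F n).1) := (one_mul _).symm
        _ ≤ 2 ^ padicValNat 2 n * ((F n).2 ^ 2 * (F n).1) := Nat.mul_le_mul_right _ h4
        _ = n := h3
    have h7 : (F n).2 ≤ (F n).2 ^ 2 := Nat.le_self_pow (by norm_num) _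
    refine ⟨?_, ?_, ?_⟩
    · calc (F n).1 = 1 * (F n).1 := (one_mul _).symm
        _ ≤ (F n).2 ^ 2 * (F n).1 := Nat.mul_le_mul_right _ (by omega)
        _ ≤ n := h6
    · calc (F n).2 ≤ (F n).2 ^ 2 := h7
        _ = (F n).2 ^ 2 * 1 := (mul_one _).symm
        _ ≤ (F n).2 ^ 2 * (F n).1 := Nat.mul_le_mul_left _ h1
        _ ≤ n := h6
    · have h8 : 2 ^ padicValNat 2 n ≤ n := by
        calc 2 ^ padicValNat 2 n = 2 ^ padicValNat 2 n * 1 := (mul_one _).symm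
          _ ≤ 2 ^ padicValNat 2 n * ((F n).2 ^ 2 * (F n).1) :=
            Nat.mul_le_mul_left _ (Nat.mul_pos (by positivity) h1)
          _ = n := h3
      omega
  have hsq : ∀ m n : ℕ, 1 ≤ m → 1 ≤ n → IsSquare (od (m * n)) → (F m).1 = (F n).1 := by
    intro m n hm hn hs
    obtain ⟨x, hx⟩ := hs
    rw [hmul m n hm hn, ← hF1 m, ← hF1 n] at hx
    refine sq_aux _ _ ((F m).2 * (F n).2) x ?_ (hF2 m) (hF2 n) ?_
    · have h1 := (hpos m hm).2
      have h2 := (hpos n hn).2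
      exact Nat.mul_ne_zero (by omega) (by omega)
    · rw [← hx]; ring
  -- the fibres
  obtain ⟨T, hT⟩ : ∃ T : ℕ → ℝ, ∀ g, T g = ∑ n ∈ (Ioc z N).filter (fun n => (F n).1 = g),
      1 / (n : ℝ) := ⟨_, fun _ => rfl⟩
  have hmain : ∑ m ∈ Ioc z N, ∑ n ∈ Ioc z N,
      (if IsSquare (od (m * n)) then 1 / ((m : ℝ) * n) else 0) ≤ ∑ g ∈ Icc 1 N, T g ^ 2 := by
    have h1 : ∑ m ∈ Ioc z N, ∑ n ∈ Ioc z N,
        (if IsSquare (od (m * n)) then 1 / ((m : ℝ) * n) else 0) ≤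
        ∑ m ∈ Ioc z N, 1 / (m : ℝ) * T (F m).1 := by
      refine sum_le_sum fun m hm => ?_
      rw [hT, mul_sum, sum_filter]
      refine sum_le_sum fun n hn' => ?_
      by_cases hs : IsSquare (od (m * n))
      · rw [if_pos hs, if_pos (hsq m n (hn m hm) (hn n hn') hs).symm]
        rw [one_div_mul_one_div]
      · rw [if_neg hs]
        split_ifs
        · positivity
        · exact le_rfl
    refine h1.trans (le_of_eq ?_)
    rw [← sum_fiberwise_of_maps_to (s := Ioc z N) (t := Icc 1 N) (g := fun m => (F m).1)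
      (fun m hm => mem_Icc.2 ⟨(hpos m (hn m hm)).1,
        (hle m (hn m hm)).1.trans (mem_Ioc.1 hm).2⟩)]
    refine sum_congr rfl fun g _ => ?_
    have h2 : ∑ m ∈ (Ioc z N).filter (fun m => (F m).1 = g), 1 / (m : ℝ) * T (F m).1 =
        ∑ m ∈ (Ioc z N).filter (fun m => (F m).1 = g), 1 / (m : ℝ) * T g :=
      sum_congr rfl fun m hm => by rw [(mem_filter.1 hm).2]
    rw [h2, ← sum_mul, ← hT g, sq]
  have hfib : ∀ g ∈ Icc 1 N, T g ≤ (z : ℝ) ^ (-(1 / 8) : ℝ) * ((g : ℝ) ^ (-(7 / 8) : ℝ) * (A * Z)) := by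
    intro g hg
    have hg1 : 1 ≤ g := (mem_Icc.1 hg).1
    have hgr : (1 : ℝ) ≤ g := by exact_mod_cast hg1
    have h1 : T g ≤ (z : ℝ) ^ (-(1 / 8) : ℝ) *
        ∑ n ∈ (Ioc z N).filter (fun n => (F n).1 = g), (n : ℝ) ^ (-(7 / 8) : ℝ) := by
      rw [hT, mul_sum]
      refine sum_le_sum fun n hn' => ?_
      have hzn : (z : ℝ) ≤ n := by exact_mod_cast (mem_Ioc.1 (mem_filter.1 hn').1).1.le
      have hn0 : (0 : ℝ) < n := by linarith
      have h2 : 1 / (n : ℝ) = (n : ℝ) ^ (-(1 / 8) : ℝ) * (n : ℝ) ^ (-(7 / 8) : ℝ) := by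
        rw [← Real.rpow_add hn0, one_div, ← Real.rpow_neg_one]; norm_num
      rw [h2]
      refine mul_le_mul_of_nonneg_right ?_ (by positivity)
      exact Real.rpow_le_rpow_of_nonpos hz0 hzn (by norm_num)
    refine h1.trans (mul_le_mul_of_nonneg_left ?_ (by positivity))
    obtain ⟨f, hf⟩ : ∃ f : ℕ × ℕ → ℝ, f = fun p => r ^ p.1 * (p.2 : ℝ) ^ (-(7 / 4) : ℝ) *
      (g : ℝ) ^ (-(7 / 8) : ℝ) := ⟨_, rfl⟩
    have h2 : ∀ n ∈ (Ioc z N).filter (fun n => (F n).1 = g), (n : ℝ) ^ (-(7 / 8) : ℝ) =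
        f (padicValNat 2 n, (F n).2) := by
      intro n hn'
      obtain ⟨h3, h4⟩ := mem_filter.1 hn'
      have h5 : (n : ℝ) = 2 ^ padicValNat 2 n * (((F n).2 : ℝ) ^ 2 * g) := by
        rw [← h4]
        exact_mod_cast (hdec n).symm
      rw [hf]
      simp only
      conv_lhs => rw [h5]
      rw [Real.mul_rpow (by positivity) (by positivity), Real.mul_rpow (by positivity)
        (by positivity), ← Real.rpow_natCast 2, ← Real.rpow_mul (by norm_num), hr,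
        ← Real.rpow_natCast ((2 : ℝ) ^ (-(7 / 8) : ℝ)), ← Real.rpow_mul (by norm_num),
        ← Real.rpow_natCast ((F n).2 : ℝ) 2, ← Real.rpow_mul (Nat.cast_nonneg _), mul_assoc]
      congr 2
      · ring
      · congr 1
        push_cast; norm_num
    rw [sum_congr rfl h2]
    have hinj : Set.InjOn (fun n => (padicValNat 2 n, (F n).2))
        ((Ioc z N).filter (fun n => (F n).1 = g) : Finset ℕ) := by
      intro n hn' n' hn'' he
      have h3 := (mem_filter.1 (mem_coe.1 hn')).2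
      have h4 := (mem_filter.1 (mem_coe.1 hn'')).2
      simp only [Prod.mk.injEq] at he
      rw [← hdec n, ← hdec n', h3, h4, he.1, he.2]
    have hsub : ((Ioc z N).filter (fun n => (F n).1 = g)).image
        (fun n => (padicValNat 2 n, (F n).2)) ⊆ range (N + 1) ×ˢ range (N + 1) := by
      intro p hp
      obtain ⟨n, hn', rfl⟩ := mem_image.1 hp
      have h3 := (mem_filter.1 hn').1
      have h4 := hle n (hn n h3)
      have h5 := (mem_Ioc.1 h3).2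
      rw [mem_product, mem_range, mem_range]
      constructor <;> simp only <;> omega
    calc ∑ n ∈ (Ioc z N).filter (fun n => (F n).1 = g), f (padicValNat 2 n, (F n).2)
        = ∑ p ∈ ((Ioc z N).filter (fun n => (F n).1 = g)).image
            (fun n => (padicValNat 2 n, (F n).2)), f p := (sum_image hinj).symm
      _ ≤ ∑ p ∈ range (N + 1) ×ˢ range (N + 1), f p :=
          sum_le_sum_of_subset_of_nonneg hsub fun p _ _ => by rw [hf]; positivity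
      _ = (g : ℝ) ^ (-(7 / 8) : ℝ) * ((∑ a ∈ range (N + 1), r ^ a) *
            ∑ s ∈ range (N + 1), (s : ℝ) ^ (-(7 / 4) : ℝ)) := by
          rw [sum_mul_sum, mul_sum, sum_product]
          refine sum_congr rfl fun a _ => ?_
          rw [mul_sum]
          refine sum_congr rfl fun s _ => ?_
          rw [hf]; ring
      _ ≤ (g : ℝ) ^ (-(7 / 8) : ℝ) * (A * Z) := by
          refine mul_le_mul_of_nonneg_left ?_ (by positivity)
          refine mul_le_mul ?_ ?_ (sum_nonneg fun s _ => by positivity) hA0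
          · rw [hA]; exact hsA.sum_le_tsum _ fun a _ => pow_nonneg hr0 a
          · rw [hZ]; exact hsZ.sum_le_tsum _ fun a _ => Real.rpow_nonneg (Nat.cast_nonneg _) _
  have hT0 : ∀ g, 0 ≤ T g := fun g => by rw [hT]; exact sum_nonneg fun n _ => by positivity
  refine hmain.trans ?_
  have hz4 : ((z : ℝ) ^ (-(1 / 8) : ℝ)) ^ 2 = (z : ℝ) ^ (-(1 / 4) : ℝ) := by
    rw [← Real.rpow_natCast, ← Real.rpow_mul hz0.le]; norm_num
  have h3 : ∑ g ∈ Icc 1 N, T g ^ 2 ≤ ∑ g ∈ Icc 1 N,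
      (z : ℝ) ^ (-(1 / 4) : ℝ) * (A * Z) ^ 2 * (g : ℝ) ^ (-(7 / 4) : ℝ) := by
    refine sum_le_sum fun g hg => ?_
    refine (pow_le_pow_left₀ (hT0 g) (hfib g hg) 2).trans (le_of_eq ?_)
    rw [mul_pow, mul_pow, hz4, ← Real.rpow_natCast ((g : ℝ) ^ (-(7 / 8) : ℝ)),
      ← Real.rpow_mul (Nat.cast_nonneg _)]
    rw [show (-(7 / 8) : ℝ) * ((2 : ℕ) : ℝ) = -(7 / 4) by norm_num]
    ring
  refine h3.trans ?_
  rw [← mul_sum]
  have h4 : ∑ g ∈ Icc 1 N, (g : ℝ) ^ (-(7 / 4) : ℝ) ≤ Z := by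
    rw [hZ]; exact hsZ.sum_le_tsum _ fun a _ => Real.rpow_nonneg (Nat.cast_nonneg _) _
  have hz5 : 0 < (z : ℝ) ^ (-(1 / 4) : ℝ) := by positivity
  calc (z : ℝ) ^ (-(1 / 4) : ℝ) * (A * Z) ^ 2 * ∑ g ∈ Icc 1 N, (g : ℝ) ^ (-(7 / 4) : ℝ)
      ≤ (z : ℝ) ^ (-(1 / 4) : ℝ) * (A * Z) ^ 2 * Z := mul_le_mul_of_nonneg_left h4 (by positivity)
    _ ≤ (Z * (A * Z) ^ 2 + 1) * (z : ℝ) ^ (-(1 / 4) : ℝ) := by nlinarith

end Pool.Agent.P8H41.CN
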